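import Pool.Agent.H24.CL.TargetsK

/-!
# Module AV of the board clk_modules: averaging over an orbit
-/

set_option autoImplicit false

open Finset MeasureTheory

namespace Pool.Agent.H19.CL

open Pool.Agent.H24.CL

lemma H_mono {k q r : ℕ} (h : r ≤ k) {a : X k} (ha : a ∈ H k q r) : a ∈ H k q k := by
  obtain ⟨s, rfl⟩ := Nat.exists_eq_add_of_le h
  have h1 : q ^ r • a = 0 := ha
  show q ^ (r + s) • a = 0
  rw [pow_add, mul_comm, mul_smul, h1, smul_zero]

/-- a representative of the coset of `y` -/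
noncomputable def rep (k q r : ℕ) (y : X k) : X k :=
  Quotient.out (QuotientAddGroup.mk y : X k ⧸ H k q r)

lemma rep_sub (k q r : ℕ) (y : X k) : y - rep k q r y ∈ H k q r := by
  have h : (QuotientAddGroup.mk (rep k q r y) : X k ⧸ H k q r) = QuotientAddGroup.mk y :=
    Quotient.out_eq' _
  rw [QuotientAddGroup.eq] at h
  rw [sub_eq_neg_add]
  exact h

lemma rep_eq {k q r : ℕ} {y y' : X k} (h : rep k q r y - rep k q r y' ∈ H k q r) :
    rep k q r y = rep k q r y' := by
  have h1 : (QuotientAddGroup.mk y : X k ⧸ H k q r) = QuotientAddGroup.mk y' := by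
    rw [QuotientAddGroup.eq]
    have e : -y + y' = -((y - rep k q r y) + (rep k q r y - rep k q r y') -
      (y' - rep k q r y')) := by abel
    rw [e]
    exact neg_mem (sub_mem (add_mem (rep_sub k q r y) h) (rep_sub k q r y'))
  rw [rep, rep, h1]

open Classical in
/-- the column of the orbit of `a` -/
noncomputable def Img (k q r b : ℕ) (a : X k) : Finset (X k) :=
  (HF k q r).image fun h => phi q b (a + h)

open Classical in
lemma fiber_sum (k q r : ℕ) (V : Set (X k)) (Z : ℝ)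
    (hHF : ∀ (r : ℕ) (a : X k), a ∈ HF k q r ↔ a ∈ H k q r) (hr : r ≤ k) (a : X k) (T : Finset (X k))
    (W : Set (X k))
    (hT1 : ∀ t ∈ T, t - a ∈ H k q k)
    (hT2 : ∀ t ∈ T, ∀ t' ∈ T, t - t' ∈ H k q r → t = t') (b : ℕ)
    (h2 : ∀ Y : Finset (X k), (∀ y ∈ Y, b ∈ Bs k q r W V y) →
        (∀ y ∈ Y, ∀ y' ∈ Y, y - y' ∈ H k q k ∧ ∃ h ∈ H k q r, phi q b (y - y' - h) = 0) →
        (∀ y ∈ Y, ∀ y' ∈ Y, y - y' ∈ H k q r → y = y') → (Y.card : ℝ) ≤ Z) :
    ∑ t ∈ T.filter (fun t => b ∈ Bs k q r W V t), (cc k q r b V t : ℝ) ≤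
      (((Img k q k b a).filter fun v => v ∈ V).card : ℝ) * Z := by
  have e1 : ∀ t ∈ T.filter (fun t => b ∈ Bs k q r W V t), (cc k q r b V t : ℝ) =
      ∑ v ∈ (Img k q k b a).filter (fun v => v ∈ V), if v ∈ Img k q r b t then (1 : ℝ) else 0 := by
    intro t ht
    rw [← Finset.sum_filter, Finset.sum_const, nsmul_eq_mul, mul_one, cc, Finset.filter_filter]
    congr 2
    ext v
    simp only [mem_filter]
    constructor
    · rintro ⟨h1, h3⟩
      refine ⟨?_, h3, h1⟩
      obtain ⟨h, hh, rfl⟩ := Finset.mem_image.1 h1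
      refine Finset.mem_image.2 ⟨(t - a) + h, ?_, ?_⟩
      · rw [hHF]
        exact add_mem (hT1 t (Finset.mem_filter.1 ht).1) (H_mono hr ((hHF r h).1 hh))
      · congr 1
        abel
    · rintro ⟨_, h3, h1⟩
      exact ⟨h1, h3⟩
  rw [Finset.sum_congr rfl e1, Finset.sum_comm]
  rw [← nsmul_eq_mul, ← Finset.sum_const]
  apply Finset.sum_le_sum
  intro v _
  rw [← Finset.sum_filter, Finset.sum_const, nsmul_eq_mul, mul_one]
  apply h2
  · intro y hy
    exact (Finset.mem_filter.1 (Finset.mem_filter.1 hy).1).2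
  · intro y hy y' hy'
    have hy1 := Finset.mem_filter.1 hy
    have hy1' := Finset.mem_filter.1 hy'
    have m := hT1 y (Finset.mem_filter.1 hy1.1).1
    have m' := hT1 y' (Finset.mem_filter.1 hy1'.1).1
    refine ⟨?_, ?_⟩
    · have e : y - y' = (y - a) - (y' - a) := by abel
      rw [e]
      exact sub_mem m m'
    · obtain ⟨h, hh, e⟩ := Finset.mem_image.1 hy1.2
      obtain ⟨h', hh', e'⟩ := Finset.mem_image.1 hy1'.2
      refine ⟨h' - h, sub_mem ((hHF r h').1 hh') ((hHF r h).1 hh), ?_⟩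
      have : y - y' - (h' - h) = (y + h) - (y' + h') := by abel
      rw [this, map_sub, e, e', sub_self]
  · intro y hy y' hy'
    exact hT2 y (Finset.mem_filter.1 (Finset.mem_filter.1 hy).1).1 y'
      (Finset.mem_filter.1 (Finset.mem_filter.1 hy').1).1

open Classical in
lemma orbit_bound (k q r : ℕ) (W V : Set (X k)) (E Z : ℝ)
    (hHF : ∀ (r : ℕ) (a : X k), a ∈ HF k q r ↔ a ∈ H k q r) (hr : r ≤ k) (hE : 0 ≤ E)
    (h1 : ∀ (a : X k) (Y : Finset (X k)), (∀ y ∈ Y, y ∈ W ∧ y - a ∈ H k q r) →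
      (Y.card : ℝ) ≤ E * ∑ b ∈ Bs k q r W V a, (cc k q r b V a : ℝ))
    (h2 : ∀ b < q, ∀ Y : Finset (X k), (∀ y ∈ Y, b ∈ Bs k q r W V y) →
      (∀ y ∈ Y, ∀ y' ∈ Y, y - y' ∈ H k q k ∧ ∃ h ∈ H k q r, phi q b (y - y' - h) = 0) →
      (∀ y ∈ Y, ∀ y' ∈ Y, y - y' ∈ H k q r → y = y') → (Y.card : ℝ) ≤ Z) (a : X k)
    (Y0 : Finset (X k)) (hY0 : ∀ y ∈ Y0, y ∈ W ∧ y - a ∈ H k q k) :
    (Y0.card : ℝ) ≤ E * ∑ b ∈ range q, (((Img k q k b a).filter fun v => v ∈ V).card : ℝ) * Z := by
  set T := Y0.image (rep k q r) with hT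
  have hT1 : ∀ t ∈ T, t - a ∈ H k q k := by
    intro t ht
    obtain ⟨y, hy, rfl⟩ := Finset.mem_image.1 ht
    have e : rep k q r y - a = (y - a) - (y - rep k q r y) := by abel
    rw [e]
    exact sub_mem (hY0 y hy).2 (H_mono hr (rep_sub k q r y))
  have hT2 : ∀ t ∈ T, ∀ t' ∈ T, t - t' ∈ H k q r → t = t' := by
    intro t ht t' ht' h
    obtain ⟨y, hy, rfl⟩ := Finset.mem_image.1 ht
    obtain ⟨y', hy', rfl⟩ := Finset.mem_image.1 ht'
    exact rep_eq h
  have hcard : (Y0.card : ℝ) ≤ ∑ t ∈ T, E * ∑ b ∈ Bs k q r W V t, (cc k q r b V t : ℝ) := by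
    have hc : Y0.card = ∑ t ∈ T, (Y0.filter fun y => rep k q r y = t).card :=
      Finset.card_eq_sum_card_image (rep k q r) Y0
    rw [hc]
    push_cast
    apply Finset.sum_le_sum
    intro t _
    apply h1
    intro y hy
    rw [Finset.mem_filter] at hy
    refine ⟨(hY0 y hy.1).1, ?_⟩
    rw [← hy.2]
    exact rep_sub k q r y
  refine hcard.trans ?_
  rw [← Finset.mul_sum]
  apply mul_le_mul_of_nonneg_left _ hE
  have hsw : ∑ t ∈ T, ∑ b ∈ Bs k q r W V t, (cc k q r b V t : ℝ) =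
      ∑ b ∈ range q, ∑ t ∈ T.filter (fun t => b ∈ Bs k q r W V t), (cc k q r b V t : ℝ) := by
    apply Finset.sum_comm'
    intro t b
    simp only [mem_filter, mem_range]
    constructor
    · rintro ⟨h3, h4⟩
      have h5 : b < q := Finset.mem_range.1 (Finset.mem_filter.1 h4).1
      exact ⟨⟨h3, h4⟩, h5⟩
    · rintro ⟨⟨h3, h4⟩, _⟩
      exact ⟨h3, h4⟩
  rw [hsw]
  apply Finset.sum_le_sum
  intro b hb
  exact fiber_sum k q r V Z hHF hr a T W hT1 hT2 b (h2 b (Finset.mem_range.1 hb))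

theorem pf_AV (hCI : T_CI) (hTO : T_TO) : TK_AV := by
  classical
  intro k q r hq hr W V E Z hW hV hE hZ h1 h2
  have hHF := (hTO k q hq).2.1
  have hEZ : 0 ≤ E * Z := mul_nonneg hE hZ
  have key := hCI k q hq (W.indicator fun _ => (1 : ℝ)) (V.indicator fun _ => E * Z) (1 + E * Z)
    (measurable_const.indicator hW) (measurable_const.indicator hV)
    (fun a => ⟨Set.indicator_nonneg (fun _ _ => zero_le_one) a, ?_⟩)
    (fun a => ⟨Set.indicator_nonneg (fun _ _ => hEZ) a, ?_⟩) ?_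
  · rw [integral_indicator_const _ hW, integral_indicator_const _ hV, smul_eq_mul, smul_eq_mul,
      mul_one] at key
    calc (q : ℝ) ^ (KN k) * volume.real W ≤ q * (volume.real V * (E * Z)) := key
      _ = E * (q * Z) * volume.real V := by ring
  · by_cases ha : a ∈ W
    · rw [Set.indicator_of_mem ha]
      linarith
    · rw [Set.indicator_of_notMem ha]
      linarith
  · by_cases ha : a ∈ V
    · rw [Set.indicator_of_mem ha]
      linarith
    · rw [Set.indicator_of_notMem ha]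
      linarith
  · intro a
    set Y0 := ((HF k q k).image fun h => a + h).filter fun y => y ∈ W with hY0
    have e1 : ∑ h ∈ HF k q k, (W.indicator (fun _ => (1 : ℝ)) (a + h)) = (Y0.card : ℝ) := by
      have : ∑ h ∈ HF k q k, (W.indicator (fun _ => (1 : ℝ)) (a + h)) =
          ∑ y ∈ (HF k q k).image (fun h => a + h), W.indicator (fun _ => (1 : ℝ)) y := by
        rw [Finset.sum_image]
        intro x _ y _ h
        exact add_left_cancel h
      rw [this, hY0, Finset.card_filter]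
      push_cast
      apply Finset.sum_congr rfl
      intro y _
      simp only [Set.indicator_apply]
    rw [e1]
    have h3 := orbit_bound k q r W V E Z hHF hr hE h1 h2 a Y0 (by
      intro y hy
      rw [hY0, Finset.mem_filter] at hy
      refine ⟨hy.2, ?_⟩
      obtain ⟨h, hh, rfl⟩ := Finset.mem_image.1 hy.1
      rw [add_sub_cancel_left]
      exact (hHF k h).1 hh)
    refine h3.trans (le_of_eq ?_)
    rw [Finset.mul_sum]
    apply Finset.sum_congr rfl
    intro b _
    have e2 : ∑ v ∈ (HF k q k).image (fun h => phi q b (a + h)), V.indicator (fun _ => E * Z) v =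
        ∑ v ∈ (Img k q k b a).filter (fun v => v ∈ V), E * Z := by
      rw [Finset.sum_filter]
      apply Finset.sum_congr
      · simp only [Img]
      · intro v _
        simp only [Set.indicator_apply]
    rw [e2, Finset.sum_const, nsmul_eq_mul]
    ring

end Pool.Agent.H19.CL
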