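import Pool.Agent.H88.CL.Basic

/-!
# Closeness of small perturbations in the `C²` sense
-/

open Pool.Agent.H88.CL Set Function Topology Metric Filter

namespace Pool.Agent.H19.CL

/-- Lipschitz bound -/
lemma lip_of_bound {d : ℕ} {L : ℝ} {F : E d → E d} (hd : Differentiable ℝ F)
    (h : ∀ x, ‖fderiv ℝ F x‖ ≤ L) (x y : E d) : ‖F x - F y‖ ≤ L * ‖x - y‖ :=
  Convex.norm_image_sub_le_of_norm_fderiv_le (s := univ)
    (fun z _ => hd z) (fun z _ => h z) convex_univ (mem_univ y) (mem_univ x)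

/-- bound of the second derivative -/
lemma snd_bound {d : ℕ} {L : ℝ} {F : E d → E d} (hL : 0 ≤ L)
    (h : ∀ x y, ‖fderiv ℝ F x - fderiv ℝ F y‖ ≤ L * ‖x - y‖) (x : E d) :
    ‖fderiv ℝ (fderiv ℝ F) x‖ ≤ L := by
  have h1 : LipschitzWith ⟨L, hL⟩ (fderiv ℝ F) := by
    apply LipschitzWith.of_dist_le_mul
    intro x y
    rw [dist_eq_norm, dist_eq_norm]
    exact h x y
  exact norm_fderiv_le_of_lipschitz ℝ h1

/-- the estimate for the second derivative -/
lemma alg {d : ℕ} {L ε w : ℝ} (hε : 0 ≤ ε) (hε1 : ε ≤ 1) (hL : 0 ≤ L) (hw : 0 ≤ w)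
    (A B : E d →L[ℝ] E d →L[ℝ] E d) (V : E d →L[ℝ] E d) (D : E d →L[ℝ] E d)
    (W : E d →L[ℝ] E d →L[ℝ] E d) (hB : ‖B‖ ≤ L) (hAB : ‖A - B‖ ≤ w) (hV : ‖V‖ ≤ ε)
    (hD : ‖D‖ ≤ L) (hW : ‖W‖ ≤ ε) (a : E d) :
    ‖D.comp (W a) + (A ((ContinuousLinearMap.id ℝ (E d) + V) a)).comp
      (ContinuousLinearMap.id ℝ (E d) + V) - B a‖ ≤ (4 * w + 4 * L * ε) * ‖a‖ := by
  have ha := norm_nonneg a
  have e : D.comp (W a) + (A ((ContinuousLinearMap.id ℝ (E d) + V) a)).comp
      (ContinuousLinearMap.id ℝ (E d) + V) - B a =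
      D.comp (W a) + ((A - B) (a + V a)).comp (ContinuousLinearMap.id ℝ (E d) + V) +
      (B (V a)).comp (ContinuousLinearMap.id ℝ (E d) + V) + (B a).comp V := by
    ext1 x
    simp only [add_apply, sub_apply,
      ContinuousLinearMap.comp_apply, ContinuousLinearMap.id_apply, map_add]
    abel
  rw [e]
  have hI : ‖ContinuousLinearMap.id ℝ (E d) + V‖ ≤ 2 := by
    have h1 := norm_add_le (ContinuousLinearMap.id ℝ (E d)) V
    have h2 := ContinuousLinearMap.norm_id_le (𝕜 := ℝ) (E := E d)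
    linarith
  have hVa : ‖V a‖ ≤ ε * ‖a‖ := (V.le_opNorm a).trans (mul_le_mul_of_nonneg_right hV ha)
  have haV : ‖a + V a‖ ≤ 2 * ‖a‖ := by
    have h1 := norm_add_le a (V a)
    have h2 : ε * ‖a‖ ≤ 1 * ‖a‖ := mul_le_mul_of_nonneg_right hε1 ha
    linarith
  have t1 : ‖D.comp (W a)‖ ≤ L * (ε * ‖a‖) := by
    refine (D.opNorm_comp_le _).trans ?_
    exact mul_le_mul hD ((W.le_opNorm a).trans (mul_le_mul_of_nonneg_right hW ha))
      (norm_nonneg _) hL
  have t2 : ‖((A - B) (a + V a)).comp (ContinuousLinearMap.id ℝ (E d) + V)‖ ≤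
      (w * (2 * ‖a‖)) * 2 := by
    refine (ContinuousLinearMap.opNorm_comp_le _ _).trans ?_
    have h1 : ‖(A - B) (a + V a)‖ ≤ w * (2 * ‖a‖) :=
      ((A - B).le_opNorm _).trans (mul_le_mul hAB haV (norm_nonneg _) hw)
    exact mul_le_mul h1 hI (norm_nonneg _) (by positivity)
  have t3 : ‖(B (V a)).comp (ContinuousLinearMap.id ℝ (E d) + V)‖ ≤ (L * (ε * ‖a‖)) * 2 := by
    refine (ContinuousLinearMap.opNorm_comp_le _ _).trans ?_
    have h1 : ‖B (V a)‖ ≤ L * (ε * ‖a‖) :=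
      (B.le_opNorm _).trans (mul_le_mul hB hVa (norm_nonneg _) hL)
    exact mul_le_mul h1 hI (norm_nonneg _) (by positivity)
  have t4 : ‖(B a).comp V‖ ≤ (L * ‖a‖) * ε := by
    refine (ContinuousLinearMap.opNorm_comp_le _ _).trans ?_
    have h1 : ‖B a‖ ≤ L * ‖a‖ := (B.le_opNorm _).trans (mul_le_mul_of_nonneg_right hB ha)
    exact mul_le_mul h1 hV (norm_nonneg _) (by positivity)
  have n1 := norm_add_le (D.comp (W a) + ((A - B) (a + V a)).comp
    (ContinuousLinearMap.id ℝ (E d) + V) + (B (V a)).comp (ContinuousLinearMap.id ℝ (E d) + V))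
    ((B a).comp V)
  have n2 := norm_add_le (D.comp (W a) + ((A - B) (a + V a)).comp
    (ContinuousLinearMap.id ℝ (E d) + V)) ((B (V a)).comp (ContinuousLinearMap.id ℝ (E d) + V))
  have n3 := norm_add_le (D.comp (W a)) (((A - B) (a + V a)).comp
    (ContinuousLinearMap.id ℝ (E d) + V))
  nlinarith

theorem pf_CL2 (h : T_UCD) : T_CL2 := by
  intro d L F F' η hc hη
  obtain ⟨δ1, hδ1, hU⟩ := h d F F' hc.toIsLift (η / 8) (by positivity)
  have hL := hc.pos
  obtain ⟨ε, hεd⟩ : ∃ ε : ℝ, ε = min (min δ1 (1 / 2)) (η / (8 * L)) := ⟨_, rfl⟩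
  have hε : 0 < ε := by
    rw [hεd]
    exact lt_min (lt_min hδ1 (by norm_num)) (by positivity)
  have he1 : ε ≤ δ1 := by
    rw [hεd]
    exact (min_le_left _ _).trans (min_le_left _ _)
  have he2 : ε ≤ 1 / 2 := by
    rw [hεd]
    exact (min_le_left _ _).trans (min_le_right _ _)
  have he3 : 8 * L * ε ≤ η := by
    have h1 : ε ≤ η / (8 * L) := by
      rw [hεd]
      exact min_le_right _ _
    rw [le_div_iff₀ (by positivity)] at h1
    linarith
  refine ⟨ε, hε, he2, ?_⟩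
  intro U hP
  have hFd : Differentiable ℝ F := hc.c2.differentiable (by norm_num)
  have hUd : Differentiable ℝ U := hP.c2.differentiable (by norm_num)
  have hF2 : Differentiable ℝ (fderiv ℝ F) :=
    (hc.c2.fderiv_right (m := 1) (by norm_num)).differentiable (by norm_num)
  have hU2 : Differentiable ℝ (fderiv ℝ U) :=
    (hP.c2.fderiv_right (m := 1) (by norm_num)).differentiable (by norm_num)
  have hH : ∀ u, HasFDerivAt (fun x => x + U x) (ContinuousLinearMap.id ℝ (E d) + fderiv ℝ U u) u :=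
    fun u => (hasFDerivAt_id u).add (hUd u).hasFDerivAt
  have hG1 : ∀ u, HasFDerivAt (Gm F U)
      ((fderiv ℝ F (u + U u)).comp (ContinuousLinearMap.id ℝ (E d) + fderiv ℝ U u)) u :=
    fun u => (hFd (u + U u)).hasFDerivAt.comp u (hH u)
  have hG1' : fderiv ℝ (Gm F U) = fun u =>
      (fderiv ℝ F (u + U u)).comp (ContinuousLinearMap.id ℝ (E d) + fderiv ℝ U u) :=
    funext fun u => (hG1 u).fderiv
  refine ⟨?_, ?_, ?_⟩
  · intro u
    have h1 := lip_of_bound hFd hc.b (u + U u) u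
    rw [add_sub_cancel_left] at h1
    have h2 : L * ‖U u‖ ≤ L * ε := mul_le_mul_of_nonneg_left (hP.s u) hL.le
    unfold Gm
    have h3 : 0 < L * ε := by positivity
    linarith
  · intro u
    rw [hG1']
    have h1 := hc.lp (u + U u) u
    rw [add_sub_cancel_left] at h1
    have h2 : L * ‖U u‖ ≤ L * ε := mul_le_mul_of_nonneg_left (hP.s u) hL.le
    have e : (fderiv ℝ F (u + U u)).comp (ContinuousLinearMap.id ℝ (E d) + fderiv ℝ U u) -
        fderiv ℝ F u = (fderiv ℝ F (u + U u) - fderiv ℝ F u) +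
        (fderiv ℝ F (u + U u)).comp (fderiv ℝ U u) := by
      ext1 x
      simp only [add_apply, sub_apply,
        ContinuousLinearMap.comp_apply, ContinuousLinearMap.id_apply, map_add]
      abel
    simp only
    rw [e]
    have h3 := norm_add_le (fderiv ℝ F (u + U u) - fderiv ℝ F u)
      ((fderiv ℝ F (u + U u)).comp (fderiv ℝ U u))
    have h4 : ‖(fderiv ℝ F (u + U u)).comp (fderiv ℝ U u)‖ ≤ L * ε := by
      refine (ContinuousLinearMap.opNorm_comp_le _ _).trans ?_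
      exact mul_le_mul (hc.b _) (hP.b u) (norm_nonneg _) hL.le
    have h5 : 0 < L * ε := by positivity
    linarith
  · intro u
    have hc1 : HasFDerivAt (fun y => fderiv ℝ F (y + U y))
        ((fderiv ℝ (fderiv ℝ F) (u + U u)).comp
          (ContinuousLinearMap.id ℝ (E d) + fderiv ℝ U u)) u :=
      (hF2 (u + U u)).hasFDerivAt.comp u (hH u)
    have hd1 : HasFDerivAt (fun y => ContinuousLinearMap.id ℝ (E d) + fderiv ℝ U y)
        (fderiv ℝ (fderiv ℝ U) u) u := (hU2 u).hasFDerivAt.const_add _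
    have hG2 := hc1.clm_comp hd1
    rw [hG1', hG2.fderiv]
    apply ContinuousLinearMap.opNorm_le_bound _ hη.le
    intro a
    have h1 := alg hε.le (by linarith) hL.le (by positivity : (0 : ℝ) ≤ η / 8)
      (fderiv ℝ (fderiv ℝ F) (u + U u)) (fderiv ℝ (fderiv ℝ F) u) (fderiv ℝ U u)
      (fderiv ℝ F (u + U u)) (fderiv ℝ (fderiv ℝ U) u) (snd_bound hL.le hc.lp u)
      (hU u (U u) ((hP.s u).trans he1)) (hP.b u) (hc.b _) (snd_bound hε.le hP.g u) a
    refine le_trans (le_of_eq ?_) (h1.trans ?_)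
    · rfl
    · have h2 : 4 * (η / 8) + 4 * L * ε ≤ η := by linarith
      exact mul_le_mul_of_nonneg_right h2 (norm_nonneg a)

end Pool.Agent.H19.CL
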