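import Pool.Agent.H88.CL.Basic

/-!
# Translation of a map close in the `C²` sense
-/

open Pool.Agent.H88.CL Set Function Topology Metric Filter

namespace Pool.Agent.H19.CL

/-- Lipschitz bound -/
lemma lipF {d : ℕ} {L : ℝ} {F F' : E d → E d} (h : Cfg d L F F') (x y : E d) :
    ‖F x - F y‖ ≤ L * ‖x - y‖ :=
  Convex.norm_image_sub_le_of_norm_fderiv_le (s := univ)
    (fun z _ => (h.c2.differentiable (by norm_num)).differentiableAt) (fun z _ => h.b z)
    convex_univ (mem_univ y) (mem_univ x)

theorem pf_CN2 (h : T_UCD) : T_CN2 := by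
  intro d L F F' η hc hη
  obtain ⟨δ1, hδ1, hU⟩ := h d F F' hc.toIsLift η hη
  have hL := hc.pos
  refine ⟨min δ1 (η / (L + 1)), lt_min hδ1 (by positivity), ?_⟩
  intro G G' t hG hcl ht
  have ht1 : ‖t‖ ≤ δ1 := ht.trans (min_le_left _ _)
  have ht2 : (L + 1) * ‖t‖ ≤ η := by
    have h1 := ht.trans (min_le_right _ _)
    rw [le_div_iff₀ (by positivity)] at h1
    linarith
  have htn := norm_nonneg t
  refine ⟨⟨?_, ?_, ?_, ?_, ?_, ?_⟩, ?_, ?_, ?_⟩
  · exact (hG.c2.comp (contDiff_id.add contDiff_const)).sub contDiff_const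
  · exact (hG.c2'.comp (contDiff_id.add contDiff_const)).sub contDiff_const
  · intro x
    simp only [sub_add_cancel, hG.li, add_sub_cancel_right]
  · intro x
    simp only [sub_add_cancel, hG.ri, add_sub_cancel_right]
  · intro x z hz
    have e : G (x + z + t) - t - (G (x + t) - t) = G (x + t + z) - G (x + t) := by
      rw [add_right_comm x z t]
      abel
    rw [e]
    exact hG.per _ _ hz
  · intro x z hz
    have e : G' (x + z + t) - t - (G' (x + t) - t) = G' (x + t + z) - G' (x + t) := by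
      rw [add_right_comm x z t]
      abel
    rw [e]
    exact hG.per' _ _ hz
  · intro u
    have e : G (u + t) - t - F u = (G (u + t) - F (u + t)) + ((F (u + t) - F u) - t) := by abel
    simp only
    rw [e]
    have h1 := norm_add_le (G (u + t) - F (u + t)) ((F (u + t) - F u) - t)
    have h2 := norm_sub_le (F (u + t) - F u) t
    have h3 := hcl.1 (u + t)
    have h4 := lipF hc (u + t) u
    rw [add_sub_cancel_left] at h4
    linarith
  · intro u
    rw [fderiv_sub_const, fderiv_comp_add_right]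
    have e : fderiv ℝ G (u + t) - fderiv ℝ F u = (fderiv ℝ G (u + t) - fderiv ℝ F (u + t)) +
        (fderiv ℝ F (u + t) - fderiv ℝ F u) := by abel
    rw [e]
    have h1 := norm_add_le (fderiv ℝ G (u + t) - fderiv ℝ F (u + t))
      (fderiv ℝ F (u + t) - fderiv ℝ F u)
    have h3 := hcl.2.1 (u + t)
    have h4 := hc.lp (u + t) u
    rw [add_sub_cancel_left] at h4
    linarith
  · intro u
    have e0 : fderiv ℝ (fun y => G (y + t) - t) = fun y => fderiv ℝ G (y + t) := by
      funext y
      rw [fderiv_sub_const, fderiv_comp_add_right]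
    rw [e0, fderiv_comp_add_right]
    have e : fderiv ℝ (fderiv ℝ G) (u + t) - fderiv ℝ (fderiv ℝ F) u =
        (fderiv ℝ (fderiv ℝ G) (u + t) - fderiv ℝ (fderiv ℝ F) (u + t)) +
        (fderiv ℝ (fderiv ℝ F) (u + t) - fderiv ℝ (fderiv ℝ F) u) := by abel
    rw [e]
    have h1 := norm_add_le (fderiv ℝ (fderiv ℝ G) (u + t) - fderiv ℝ (fderiv ℝ F) (u + t))
      (fderiv ℝ (fderiv ℝ F) (u + t) - fderiv ℝ (fderiv ℝ F) u)
    have h3 := hcl.2.2 (u + t)
    have h4 := hU u t ht1
    linarith

end Pool.Agent.H19.CL
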