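import Pool.Agent.H24.CL.Targets

/-!
Row GO: the integrated inequality for the good points.
-/

set_option autoImplicit false

open Finset MeasureTheory

namespace Pool.Agent.H19.CL

open Pool.Agent.H24.CL

theorem pf_GO (hOI : T_OI) (hCI : T_CI) (hEX : T_EX) : T_GO := by
  classical
  intro k hk
  obtain ⟨C, q₀, hC, hoi⟩ := hOI k hk
  refine ⟨C, q₀, hC, fun q L M R Gd hq hqp hL hM hR hRq hGm hG1 hG2 hG3 => ?_⟩
  obtain ⟨-, -, -, -, -, -, -, hcont, hnorm⟩ := hEX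
  have hq1 : 1 ≤ q := hqp.one_le
  have hq0 : (0 : ℝ) < q := by exact_mod_cast hqp.pos
  have hq1' : (1 : ℝ) ≤ q := by exact_mod_cast hq1
  set K : ℝ := 1 + C * (q : ℝ) ^ (-(1 / (8 * (k : ℝ)))) with hK
  have hK1 : 1 ≤ K := by
    have h1 : 0 ≤ C * (q : ℝ) ^ (-(1 / (8 * (k : ℝ)))) :=
      mul_nonneg hC (Real.rpow_nonneg hq0.le _)
    linarith
  have hKM : M ≤ K * M := by nlinarith
  have hsq : ∀ (N : ℕ) (a : X k), ‖u N a‖ ^ 2 ≤ 1 := fun N a => by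
    have h1 := hnorm k N a
    have h2 := norm_nonneg (u N a)
    nlinarith
  have hmeas : ∀ (N : ℕ) (c : ℝ), Measurable fun a : X k => max (c * ‖u N a‖ ^ 2 - 1 / 2) 0 := by
    intro N c
    have h1 : Continuous fun a : X k => max (c * ‖u N a‖ ^ 2 - 1 / 2) 0 := by
      have h2 := hcont k N
      fun_prop
    exact h1.measurable
  have hg : Measurable fun a : X k => if a ∈ Gd then max (M * ‖u (q * L) a‖ ^ 2 - 1 / 2) 0 else 0 :=
    Measurable.ite hGm (hmeas _ _) measurable_const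
  have hψ : Measurable fun a : X k => (1 / (q : ℝ)) * max (K * M * ‖u L a‖ ^ 2 - 1 / 2) 0 :=
    (hmeas _ _).const_mul _
  have hgb : ∀ a : X k, 0 ≤ (if a ∈ Gd then max (M * ‖u (q * L) a‖ ^ 2 - 1 / 2) 0 else 0) ∧
      (if a ∈ Gd then max (M * ‖u (q * L) a‖ ^ 2 - 1 / 2) 0 else 0) ≤ K * M := by
    intro a
    split_ifs with h
    · refine ⟨le_max_right _ _, max_le ?_ (by nlinarith)⟩
      have h1 := hsq (q * L) a
      nlinarith
    · exact ⟨le_rfl, by nlinarith⟩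
  have hψb : ∀ a : X k, 0 ≤ (1 / (q : ℝ)) * max (K * M * ‖u L a‖ ^ 2 - 1 / 2) 0 ∧
      (1 / (q : ℝ)) * max (K * M * ‖u L a‖ ^ 2 - 1 / 2) 0 ≤ K * M := by
    intro a
    have h1 : 0 ≤ max (K * M * ‖u L a‖ ^ 2 - 1 / 2) 0 := le_max_right _ _
    have h2 : max (K * M * ‖u L a‖ ^ 2 - 1 / 2) 0 ≤ K * M := by
      refine max_le ?_ (by nlinarith)
      have h3 := hsq L a
      have h4 : 0 ≤ K * M := by nlinarith
      nlinarith
    have h5 : 1 / (q : ℝ) ≤ 1 := by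
      rw [div_le_one hq0]
      exact hq1'
    have h6 : 0 ≤ 1 / (q : ℝ) := by positivity
    exact ⟨mul_nonneg h6 h1, (mul_le_of_le_one_left h1 h5).trans h2⟩
  have hor : ∀ a : X k, ∑ h ∈ HF k q k, (if a + h ∈ Gd then
        max (M * ‖u (q * L) (a + h)‖ ^ 2 - 1 / 2) 0 else 0) ≤
      ∑ b ∈ range q, ∑ v ∈ (HF k q k).image (fun h => phi q b (a + h)),
        (1 / (q : ℝ)) * max (K * M * ‖u L v‖ ^ 2 - 1 / 2) 0 := by
    intro a
    refine (hoi q L M R Gd hq hqp hL hM hR hRq hG1 hG2 hG3 a).trans (le_of_eq ?_)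
    rw [Finset.mul_sum]
    refine Finset.sum_congr rfl fun b _ => ?_
    rw [Finset.mul_sum]
  have hmain := hCI k q hq1 (fun a => if a ∈ Gd then max (M * ‖u (q * L) a‖ ^ 2 - 1 / 2) 0 else 0)
    (fun a => (1 / (q : ℝ)) * max (K * M * ‖u L a‖ ^ 2 - 1 / 2) 0) (K * M) hg hψ hgb hψb hor
  have h1 : ∫ a : X k, (if a ∈ Gd then max (M * ‖u (q * L) a‖ ^ 2 - 1 / 2) 0 else 0) =
      ∫ a in Gd, max (M * ‖u (q * L) a‖ ^ 2 - 1 / 2) 0 := by
    rw [← integral_indicator hGm]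
    rfl
  have h2 : (q : ℝ) * ∫ a : X k, (1 / (q : ℝ)) * max (K * M * ‖u L a‖ ^ 2 - 1 / 2) 0 =
      ∫ a : X k, max (K * M * ‖u L a‖ ^ 2 - 1 / 2) 0 := by
    rw [integral_const_mul, ← mul_assoc, mul_one_div_cancel hq0.ne', one_mul]
  rw [h1, h2] at hmain
  exact hmain

end Pool.Agent.H19.CL
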