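import Pool.Agent.H88.CL.Basic

/-!
# Nonwandering points in lifts
-/

open Pool.Agent.H88.CL Set Function Topology Metric Filter

namespace Pool.Agent.H19.CL

theorem pf_NWL : T_NWL := by
  intro d f F _ hf x hx ρ hρ
  have hV : (mk d) '' (ball x ρ) ∈ 𝓝 (mk d x) := by
    apply IsOpen.mem_nhds
    · exact QuotientAddGroup.isOpenMap_coe (N := Lat d) _ isOpen_ball
    · exact ⟨x, mem_ball_self hρ, rfl⟩
  obtain ⟨n, hn, ⟨w, ⟨v, ⟨x', hx', rfl⟩, rfl⟩, ⟨y, hy, hyw⟩⟩⟩ := hx _ hV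
  rw [perm_pow_mk hf n x'] at hyw
  rw [mk_eq] at hyw
  rw [mem_ball, dist_eq_norm] at hx' hy
  refine ⟨x', n, hn, hx'.le, F^[n] x' - y, ?_, ?_⟩
  · rw [← neg_sub]
    exact neg_mem hyw
  · have e : F^[n] x' - x - (F^[n] x' - y) = y - x := by abel
    rw [e]
    exact hy.le

end Pool.Agent.H19.CL
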