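import Pool.Agent.H88.CL.Basic

/-!
# Sums of bumps and their translates
-/

open Pool.Agent.H88.CL Set Function Topology Metric Filter

namespace Pool.Agent.H19.CL

/-- finitely many lattice points in a ball -/
lemma lat_finite (d : ℕ) (M : ℝ) : {z : E d | z ∈ Lat d ∧ ‖z‖ ≤ M}.Finite := by
  obtain ⟨m, hm⟩ := exists_nat_ge M
  refine (Set.finite_range (fun f : Fin d → Set.Icc (-(m : ℤ)) m =>
    (WithLp.toLp 2 (fun i => ((f i : ℤ) : ℝ)) : E d))).subset ?_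
  rintro z ⟨hz, hzM⟩
  choose n hn using hz
  have hb : ∀ i, n i ∈ Set.Icc (-(m : ℤ)) m := by
    intro i
    have h1 : |z i| ≤ ‖z‖ := by
      have h2 : ‖z i‖ ^ 2 ≤ ∑ j, ‖z j‖ ^ 2 :=
        Finset.single_le_sum (f := fun j => ‖z j‖ ^ 2) (fun j _ => sq_nonneg _) (Finset.mem_univ i)
      rw [EuclideanSpace.norm_eq z, ← Real.norm_eq_abs]
      exact Real.le_sqrt_of_sq_le h2
    rw [hn i] at h1
    have h3 : |((n i : ℤ) : ℝ)| ≤ (m : ℝ) := h1.trans (hzM.trans hm)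
    have h4 : |n i| ≤ (m : ℤ) := by exact_mod_cast h3
    exact abs_le.1 h4
  refine ⟨fun i => ⟨n i, hb i⟩, ?_⟩
  ext i
  simp [hn i]

section
variable {d N : ℕ} {S : ℕ → Set (E d)}

/-- the index set -/
abbrev Ix (d N : ℕ) : Type := {p : ℕ × E d // p.1 < N ∧ p.2 ∈ Lat d}

/-- the translates -/
def Kt (S : ℕ → Set (E d)) (i : Ix d N) : Set (E d) := {y | y - i.1.2 ∈ S i.1.1}

lemma Kt_closed (hS : ∀ l < N, IsCompact (S l)) (i : Ix d N) : IsClosed (Kt S i) := by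
  have h1 : IsClosed (S i.1.1) := (hS _ i.2.1).isClosed
  exact h1.preimage (continuous_id.sub continuous_const)

lemma Kt_lf (hS : ∀ l < N, IsCompact (S l)) : LocallyFinite (fun i : Ix d N => Kt S i) := by
  intro y0
  have hb : ∀ l, ∃ R : ℝ, l < N → ∀ y ∈ S l, ‖y‖ ≤ R := by
    intro l
    by_cases hl : l < N
    · obtain ⟨R, hR⟩ := (hS l hl).isBounded.exists_norm_le
      exact ⟨R, fun _ => hR⟩
    · exact ⟨0, fun h => absurd h hl⟩
  choose R hR using hb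
  obtain ⟨M, hM⟩ : ∃ M : ℝ, M = ‖y0‖ + 1 + ∑ l ∈ Finset.range N, |R l| := ⟨_, rfl⟩
  refine ⟨ball y0 1, ball_mem_nhds _ one_pos, ?_⟩
  have hfin : (Set.Iio N ×ˢ {z : E d | z ∈ Lat d ∧ ‖z‖ ≤ M}).Finite :=
    (Set.finite_Iio N).prod (lat_finite d M)
  refine (hfin.preimage (f := fun i : Ix d N => i.1) Subtype.val_injective.injOn).subset ?_
  rintro i ⟨y, hy, hy0⟩
  refine ⟨i.2.1, i.2.2, ?_⟩
  rw [mem_ball, dist_eq_norm] at hy0
  have h1 : ‖y - i.1.2‖ ≤ R i.1.1 := hR _ i.2.1 _ hy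
  have h2 : |R i.1.1| ≤ ∑ l ∈ Finset.range N, |R l| :=
    Finset.single_le_sum (f := fun l => |R l|) (fun l _ => abs_nonneg _)
      (Finset.mem_range.2 i.2.1)
  have e : i.1.2 = y0 + (y - y0) - (y - i.1.2) := by abel
  have h3 : ‖i.1.2‖ ≤ ‖y0 + (y - y0)‖ + ‖y - i.1.2‖ := by
    conv_lhs => rw [e]
    exact norm_sub_le _ _
  have h4 := norm_add_le y0 (y - y0)
  have h5 := le_abs_self (R i.1.1)
  rw [hM]
  linarith

lemma Kt_rest (hS : ∀ l < N, IsCompact (S l)) (Q : Ix d N → Prop) :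
    IsClosed (⋃ j : {j : Ix d N // Q j}, Kt S j.1) := by
  apply LocallyFinite.isClosed_iUnion
  · exact (Kt_lf hS).comp_injective Subtype.val_injective
  · intro j
    exact Kt_closed hS j.1

open scoped Classical in
/-- the sum -/
noncomputable def Us (N : ℕ) (S : ℕ → Set (E d)) (u : ℕ → E d → E d) (y : E d) : E d :=
  if h : ∃ i : Ix d N, y ∈ Kt S i then u h.choose.1.1 (y - h.choose.1.2) else 0

lemma Kt_uniq (hD : ∀ l < N, ∀ l' < N, ∀ y ∈ S l, ∀ y' ∈ S l', y - y' ∈ Lat d → l = l' ∧ y = y')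
    {i j : Ix d N} {y : E d} (hi : y ∈ Kt S i) (hj : y ∈ Kt S j) : i = j := by
  have h1 := hD _ i.2.1 _ j.2.1 _ hi _ hj (by
    have e : y - i.1.2 - (y - j.1.2) = j.1.2 - i.1.2 := by abel
    rw [e]
    exact sub_mem j.2.2 i.2.2)
  apply Subtype.ext
  apply Prod.ext h1.1
  exact sub_right_injective h1.2

lemma Us_mem (hD : ∀ l < N, ∀ l' < N, ∀ y ∈ S l, ∀ y' ∈ S l', y - y' ∈ Lat d → l = l' ∧ y = y')
    (u : ℕ → E d → E d) {i : Ix d N} {y : E d} (hi : y ∈ Kt S i) :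
    Us N S u y = u i.1.1 (y - i.1.2) := by
  classical
  have hex : ∃ i : Ix d N, y ∈ Kt S i := ⟨i, hi⟩
  unfold Us
  rw [dif_pos hex]
  have := Kt_uniq hD hex.choose_spec hi
  rw [this]

lemma Us_not (u : ℕ → E d → E d) {y : E d} (hy : ¬ ∃ i : Ix d N, y ∈ Kt S i) :
    Us N S u y = 0 := by
  classical
  unfold Us
  rw [dif_neg hy]

/-- near a point of a translate -/
lemma Us_near (hS : ∀ l < N, IsCompact (S l))
    (hD : ∀ l < N, ∀ l' < N, ∀ y ∈ S l, ∀ y' ∈ S l', y - y' ∈ Lat d → l = l' ∧ y = y')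
    (u : ℕ → E d → E d) (hu : ∀ l < N, ∀ y, u l y ≠ 0 → y ∈ S l) {i : Ix d N} {y : E d}
    (hi : y ∈ Kt S i) : Us N S u =ᶠ[𝓝 y] fun y => u i.1.1 (y - i.1.2) := by
  have h1 : (⋃ j : {j : Ix d N // j ≠ i}, Kt S j.1)ᶜ ∈ 𝓝 y := by
    apply (Kt_rest hS _).isOpen_compl.mem_nhds
    intro h
    rw [mem_iUnion] at h
    obtain ⟨j, hj⟩ := h
    exact j.2 (Kt_uniq hD hj hi)
  filter_upwards [h1] with w hw
  by_cases hwi : w ∈ Kt S i
  · exact Us_mem hD u hwi
  · rw [Us_not]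
    · by_contra hne
      exact hwi (hu _ i.2.1 _ (Ne.symm hne))
    · rintro ⟨j, hj⟩
      apply hw
      rw [mem_iUnion]
      refine ⟨⟨j, ?_⟩, hj⟩
      rintro rfl
      exact hwi hj

lemma Us_far (hS : ∀ l < N, IsCompact (S l)) (u : ℕ → E d → E d) {y : E d}
    (hy : ¬ ∃ i : Ix d N, y ∈ Kt S i) : Us N S u =ᶠ[𝓝 y] fun _ => 0 := by
  have h1 : (⋃ j : {_j : Ix d N // True}, Kt S j.1)ᶜ ∈ 𝓝 y := by
    apply (Kt_rest hS _).isOpen_compl.mem_nhds
    intro h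
    rw [mem_iUnion] at h
    obtain ⟨j, hj⟩ := h
    exact hy ⟨j.1, hj⟩
  filter_upwards [h1] with w hw
  apply Us_not
  rintro ⟨j, hj⟩
  apply hw
  rw [mem_iUnion]
  exact ⟨⟨j, trivial⟩, hj⟩

end

theorem pf_SUM : T_SUM := by
  intro d N S u σ β γ hσ hβ hγ hl hD
  have hS : ∀ l < N, IsCompact (S l) := fun l h => (hl l h).1
  have hu : ∀ l < N, ∀ y, u l y ≠ 0 → y ∈ S l := fun l h => (hl l h).2.2.2.2.2
  -- the derivatives
  have hv : ∀ (i : Ix d N) (y : E d), fderiv ℝ (fun y => u i.1.1 (y - i.1.2)) y =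
      fderiv ℝ (u i.1.1) (y - i.1.2) := by
    intro i y
    have h1 := fderiv_comp_add_right (𝕜 := ℝ) (f := u i.1.1) (x := y) (-i.1.2)
    simpa only [← sub_eq_add_neg] using h1
  have hDmem : ∀ (i : Ix d N) (y : E d), y ∈ Kt S i →
      fderiv ℝ (Us N S u) y = fderiv ℝ (u i.1.1) (y - i.1.2) := by
    intro i y hy
    rw [(Us_near hS hD u hu hy).fderiv_eq, hv]
  have hDnot : ∀ (y : E d), (¬ ∃ i : Ix d N, y ∈ Kt S i) → fderiv ℝ (Us N S u) y = 0 := by
    intro y hy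
    rw [(Us_far hS u hy).fderiv_eq]
    simp
  have hoff : ∀ (i : Ix d N) (y : E d), y ∉ Kt S i → fderiv ℝ (u i.1.1) (y - i.1.2) = 0 := by
    intro i y hy
    rw [← hv]
    have h1 : (fun y => u i.1.1 (y - i.1.2)) =ᶠ[𝓝 y] fun _ => 0 := by
      filter_upwards [(Kt_closed hS i).isOpen_compl.mem_nhds hy] with w hw
      by_contra hne
      exact hw (hu _ i.2.1 _ hne)
    rw [h1.fderiv_eq]
    simp
  -- one half of the Lipschitz bound
  have hlip : ∀ (i : Ix d N) (y y' : E d),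
      ‖fderiv ℝ (u i.1.1) (y - i.1.2) - fderiv ℝ (u i.1.1) (y' - i.1.2)‖ ≤ γ * ‖y - y'‖ := by
    intro i y y'
    have h1 := (hl _ i.2.1).2.2.2.2.1 (y - i.1.2) (y' - i.1.2)
    have e : y - i.1.2 - (y' - i.1.2) = y - y' := by abel
    rw [e] at h1
    exact h1
  have hA : ∀ y y' : E d, (∃ i : Ix d N, y ∈ Kt S i ∧ y' ∈ Kt S i) ∨
      ‖fderiv ℝ (Us N S u) y‖ ≤ γ * ‖y - y'‖ := by
    intro y y'
    by_cases hy : ∃ i : Ix d N, y ∈ Kt S i
    · obtain ⟨i, hi⟩ := hy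
      by_cases hi' : y' ∈ Kt S i
      · exact Or.inl ⟨i, hi, hi'⟩
      · right
        rw [hDmem i y hi]
        have h1 := hlip i y y'
        rw [hoff i y' hi', sub_zero] at h1
        exact h1
    · right
      rw [hDnot y hy, norm_zero]
      positivity
  refine ⟨Us N S u, ⟨?_, ?_, ?_, ?_, ?_⟩, ?_, ?_⟩
  · rw [contDiff_iff_contDiffAt]
    intro y
    by_cases hy : ∃ i : Ix d N, y ∈ Kt S i
    · obtain ⟨i, hi⟩ := hy
      refine ContDiffAt.congr_of_eventuallyEq ?_ (Us_near hS hD u hu hi)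
      exact ((hl _ i.2.1).2.1.comp (contDiff_id.sub contDiff_const)).contDiffAt
    · exact contDiffAt_const.congr_of_eventuallyEq (Us_far hS u hy)
  · intro x z hz
    by_cases hx : ∃ i : Ix d N, x ∈ Kt S i
    · obtain ⟨i, hi⟩ := hx
      have h1 : x + z - (i.1.2 + z) = x - i.1.2 := by abel
      have h2 : x + z ∈ Kt S (⟨(i.1.1, i.1.2 + z), i.2.1, add_mem i.2.2 hz⟩ : Ix d N) := by
        change x + z - (i.1.2 + z) ∈ S i.1.1
        rw [h1]
        exact hi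
      rw [Us_mem hD u hi, Us_mem hD u h2]
      simp only
      rw [h1]
    · have hxz : ¬ ∃ i : Ix d N, x + z ∈ Kt S i := by
        rintro ⟨i, hi⟩
        apply hx
        refine ⟨(⟨(i.1.1, i.1.2 - z), i.2.1, sub_mem i.2.2 hz⟩ : Ix d N), ?_⟩
        change x - (i.1.2 - z) ∈ S i.1.1
        have h1 : x - (i.1.2 - z) = x + z - i.1.2 := by abel
        rw [h1]
        exact hi
      rw [Us_not u hx, Us_not u hxz]
  · intro x
    by_cases hx : ∃ i : Ix d N, x ∈ Kt S i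
    · obtain ⟨i, hi⟩ := hx
      rw [Us_mem hD u hi]
      exact (hl _ i.2.1).2.2.1 _
    · rw [Us_not u hx, norm_zero]
      exact hσ
  · intro x
    by_cases hx : ∃ i : Ix d N, x ∈ Kt S i
    · obtain ⟨i, hi⟩ := hx
      rw [hDmem i x hi]
      exact (hl _ i.2.1).2.2.2.1 _
    · rw [hDnot x hx, norm_zero]
      exact hβ
  · intro x y
    rcases hA x y with ⟨i, hi, hi'⟩ | h1
    · rw [hDmem i x hi, hDmem i y hi']
      have h2 := hlip i x y
      have h3 : 0 ≤ γ * ‖x - y‖ := by positivity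
      linarith
    · rcases hA y x with ⟨i, hi, hi'⟩ | h2
      · rw [hDmem i x hi', hDmem i y hi]
        have h2 := hlip i x y
        have h3 : 0 ≤ γ * ‖x - y‖ := by positivity
        linarith
      · rw [norm_sub_rev y x] at h2
        have h3 := norm_sub_le (fderiv ℝ (Us N S u) x) (fderiv ℝ (Us N S u) y)
        linarith
  · intro l hlN y hy
    have h2 : y ∈ Kt S (⟨(l, 0), hlN, zero_mem _⟩ : Ix d N) := by
      change y - 0 ∈ S l
      rw [sub_zero]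
      exact hy
    rw [Us_mem hD u h2]
    simp
  · intro y hy
    by_contra hcon
    push Not at hcon
    apply hy
    apply Us_not
    rintro ⟨i, hi⟩
    refine hcon i.1.1 i.2.1 _ hi ?_
    have e : y - (y - i.1.2) = i.1.2 := by abel
    rw [e]
    exact i.2.2

end Pool.Agent.H19.CL
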